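import Mathlib

/-!
# Squarefree number plus a power of two (MP_b0e387_nt): basic facts
-/

set_option autoImplicit false

open Finset

namespace Pool.Agent.SqTwo

/-- `n` is the sum of a squarefree positive integer and a power of two -/
def Rep (n : ℕ) : Prop := ∃ k l : ℕ, Squarefree k ∧ n = k + 2 ^ l

/-- the exceptional integers: `n > 1`, not divisible by four, not representable -/
def exc : Set ℕ := {n | 1 < n ∧ ¬ 4 ∣ n ∧ ¬ Rep n}

/-- for an exceptional `n`, the number `n - 2 ^ l` is divisible by the square of an odd prime -/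
theorem exists_prime_of_exc {n l : ℕ} (hn : n ∈ exc) (hl : 2 ≤ l) (hlt : 2 ^ l ≤ n) :
    ∃ p : ℕ, p.Prime ∧ p ≠ 2 ∧ p ^ 2 ∣ n - 2 ^ l := by
  obtain ⟨-, h4, hrep⟩ := hn
  have hns : ¬ Squarefree (n - 2 ^ l) := fun h => hrep ⟨n - 2 ^ l, l, h, by omega⟩
  rw [Nat.squarefree_iff_prime_squarefree] at hns
  push Not at hns
  obtain ⟨p, hp, hpd⟩ := hns
  refine ⟨p, hp, ?_, by rw [pow_two]; exact hpd⟩
  rintro rfl
  apply h4
  have h1 : 4 ∣ 2 ^ l := by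
    have : 2 ^ 2 ∣ 2 ^ l := pow_dvd_pow 2 hl
    simpa using this
  have h2 : 4 ∣ n - 2 ^ l := by simpa using hpd
  have := (Nat.dvd_add_right h1).2 h2
  rwa [Nat.add_sub_cancel' hlt] at this

theorem modEq_of_dvd {n m q : ℕ} (hm : m ≤ n) (h : q ∣ n - m) : n ≡ m [MOD q] :=
  ((Nat.modEq_iff_dvd' hm).2 h).symm

theorem not_rep_of_cover {n : ℕ} (h : ∀ l : ℕ, ∃ p : ℕ, p.Prime ∧ n ≡ 2 ^ l [MOD p ^ 2]) :
    ¬ Rep n := by
  rintro ⟨k, l, hk, hn⟩
  obtain ⟨p, hp, hmod⟩ := h l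
  have hle : 2 ^ l ≤ n := by omega
  have hd : p ^ 2 ∣ n - 2 ^ l := (Nat.modEq_iff_dvd' hle).1 hmod.symm
  have hk' : n - 2 ^ l = k := by omega
  rw [hk', pow_two] at hd
  exact hp.one_lt.ne' (Nat.isUnit_iff.1 (hk p hd))

theorem two_unit {p : ℕ} (hp : p.Prime) (hp2 : p ≠ 2) : IsUnit (2 : ZMod (p ^ 2)) := by
  have h : Nat.Coprime 2 (p ^ 2) :=
    ((Nat.coprime_primes Nat.prime_two hp).2 hp2.symm).pow_right 2
  have := (ZMod.isUnit_iff_coprime 2 (p ^ 2)).2 h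
  simpa using this

theorem isOfFinOrder_two {p : ℕ} (hp : p.Prime) (hp2 : p ≠ 2) :
    IsOfFinOrder (2 : ZMod (p ^ 2)) := by
  haveI : NeZero (p ^ 2) := ⟨(pow_pos hp.pos 2).ne'⟩
  exact (two_unit hp hp2).isOfFinOrder

theorem pow_modEq_iff {p : ℕ} (hp : p.Prime) (hp2 : p ≠ 2) (a b : ℕ) :
    2 ^ a ≡ 2 ^ b [MOD p ^ 2] ↔ a ≡ b [MOD orderOf (2 : ZMod (p ^ 2))] := by
  rw [← (isOfFinOrder_two hp hp2).pow_eq_pow_iff_modEq, ← ZMod.natCast_eq_natCast_iff]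
  push_cast
  exact Iff.rfl

theorem card_modEq_le (N v r : ℕ) (hr : 0 < r) :
    (((range N).filter (fun n => n ≡ v [MOD r])).card : ℝ) ≤ N / r + 1 := by
  rw [← Nat.count_eq_card_filter_range, Nat.count_modEq_card _ hr]
  push_cast
  have h1 : ((N / r : ℕ) : ℝ) ≤ (N : ℝ) / r := Nat.cast_div_le
  split_ifs <;> simp <;> linarith

end Pool.Agent.SqTwo
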