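import Pool.Agent.SqTwo.GapBig

/-!
# Exponential moments
-/

set_option autoImplicit false

open Finset

namespace Pool.Agent.SqTwo

/-- the exponents of the window whose power of two is a given residue -/
def bz (p : ℕ) (c : ZMod (p ^ 2)) : ℕ := (II.filter fun l => c = 2 ^ l).card

theorem bz_natCast (p n : ℕ) : bz p (n : ZMod (p ^ 2)) = (BB p n).card := by
  unfold bz BB
  congr 1
  apply Finset.filter_congr
  intro l _
  rw [← ZMod.natCast_eq_natCast_iff]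
  push_cast
  exact Iff.rfl

theorem sum_bz (p : ℕ) [NeZero (p ^ 2)] : ∑ c : ZMod (p ^ 2), bz p c = 175 := by
  unfold bz
  have h := Finset.card_eq_sum_card_fiberwise (s := II) (t := (Finset.univ : Finset (ZMod (p ^ 2))))
    (f := fun l => (2 : ZMod (p ^ 2)) ^ l) (fun _ _ => Finset.mem_coe.2 (Finset.mem_univ _))
  have h175 : II.card = 175 := by simp [II]
  rw [h175] at h
  rw [h]
  refine Finset.sum_congr rfl fun c _ => ?_
  congr 1
  apply Finset.filter_congr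
  intro l _
  exact eq_comm

/-- a bound for the sum of `10 ^ b` over the residues -/
theorem sum_pow_le (p : ℕ) [NeZero (p ^ 2)] {w : ℝ}
    (h : ∀ c : ZMod (p ^ 2), (10 : ℝ) ^ bz p c ≤ 1 + w * bz p c) :
    ∑ c : ZMod (p ^ 2), (10 : ℝ) ^ bz p c ≤ p ^ 2 + 175 * w := by
  calc ∑ c : ZMod (p ^ 2), (10 : ℝ) ^ bz p c ≤ ∑ c : ZMod (p ^ 2), (1 + w * bz p c) :=
        Finset.sum_le_sum fun c _ => h c
    _ = p ^ 2 + 175 * w := by
        rw [Finset.sum_add_distrib, ← Finset.mul_sum, Finset.sum_const, Finset.card_univ,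
          ZMod.card, nsmul_eq_mul, mul_one, ← Nat.cast_sum, sum_bz]
        push_cast
        ring

theorem card_nat_le (Q : ℕ) [NeZero Q] (N : ℕ) (x : ZMod Q) :
    (((range N).filter (fun n : ℕ => (n : ZMod Q) = x)).card : ℝ) ≤ N / Q + 1 := by
  have h : (range N).filter (fun n : ℕ => (n : ZMod Q) = x) =
      (range N).filter (fun n => n ≡ x.val [MOD Q]) := by
    apply Finset.filter_congr
    intro n _
    rw [← ZMod.natCast_eq_natCast_iff, ZMod.natCast_zmod_val]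
  rw [h]
  exact card_modEq_le N _ Q (Nat.pos_of_ne_zero (NeZero.ne Q))

theorem sum_range_le (Q : ℕ) [NeZero Q] (N : ℕ) (F : ZMod Q → ℝ) (hF : ∀ x, 0 ≤ F x) :
    ∑ n ∈ range N, F (n : ZMod Q) ≤ (N / Q + 1) * ∑ x : ZMod Q, F x := by
  rw [← Finset.sum_fiberwise_of_maps_to (t := (Finset.univ : Finset (ZMod Q)))
    (g := fun n : ℕ => (n : ZMod Q)) (fun _ _ => Finset.mem_univ _), Finset.mul_sum]
  refine Finset.sum_le_sum fun x _ => ?_
  calc ∑ n ∈ (range N).filter (fun n : ℕ => (n : ZMod Q) = x), F (n : ZMod Q)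
      = ∑ n ∈ (range N).filter (fun n : ℕ => (n : ZMod Q) = x), F x :=
        Finset.sum_congr rfl fun n hn => by rw [(Finset.mem_filter.1 hn).2]
    _ = ((range N).filter (fun n : ℕ => (n : ZMod Q) = x)).card * F x := by
        rw [Finset.sum_const, nsmul_eq_mul]
    _ ≤ (N / Q + 1) * F x := mul_le_mul_of_nonneg_right (card_nat_le Q N x) (hF x)

/-- the average of the product over all primes of a finite set -/
theorem sum_prod_le (P : Finset ℕ) (hP : ∀ p ∈ P, p.Prime) (θ : ℕ → ℝ)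
    (h : ∀ p ∈ P, ∀ c : ZMod (p ^ 2), (10 : ℝ) ^ bz p c ≤ 1 + θ p * bz p c) (N : ℕ) :
    ∑ n ∈ range N, ∏ p ∈ P, (10 : ℝ) ^ (BB p n).card ≤
      (N + ((∏ p ∈ P, p ^ 2 : ℕ) : ℝ)) * ∏ p ∈ P, (1 + 175 * θ p / p ^ 2) := by
  classical
  haveI hne : ∀ i : {p // p ∈ P}, NeZero ((i : ℕ) ^ 2) := fun i =>
    ⟨(pow_pos (hP i i.2).pos 2).ne'⟩
  have hcop : Pairwise (Function.onFun Nat.Coprime fun i : {p // p ∈ P} => (i : ℕ) ^ 2) := by
    intro i j hij
    exact Nat.Coprime.pow _ _ ((Nat.coprime_primes (hP i i.2) (hP j j.2)).2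
      fun h => hij (Subtype.ext h))
  set Q : ℕ := ∏ i : {p // p ∈ P}, (i : ℕ) ^ 2 with hQ
  have hQ' : Q = ∏ p ∈ P, p ^ 2 := by
    rw [hQ, ← Finset.prod_coe_sort P (fun p => p ^ 2)]
  haveI hQ0 : NeZero Q := ⟨Finset.prod_ne_zero_iff.2 fun i _ => (hne i).out⟩
  let e : ZMod Q ≃+* (∀ i : {p // p ∈ P}, ZMod ((i : ℕ) ^ 2)) :=
    ZMod.prodEquivPi (fun i : {p // p ∈ P} => (i : ℕ) ^ 2) hcop
  let F : ZMod Q → ℝ := fun x => ∏ i : {p // p ∈ P}, (10 : ℝ) ^ bz (i : ℕ) (e x i)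
  have hF0 : ∀ x, 0 ≤ F x := fun x => Finset.prod_nonneg fun i _ => by positivity
  have hFn : ∀ n : ℕ, F (n : ZMod Q) = ∏ p ∈ P, (10 : ℝ) ^ (BB p n).card := by
    intro n
    rw [← Finset.prod_coe_sort P (fun p => (10 : ℝ) ^ (BB p n).card)]
    refine Finset.prod_congr rfl fun i _ => ?_
    rw [map_natCast, Pi.natCast_apply, bz_natCast]
  have hsum : ∑ x : ZMod Q, F x =
      ∏ i : {p // p ∈ P}, ∑ c : ZMod ((i : ℕ) ^ 2), (10 : ℝ) ^ bz (i : ℕ) c := by
    rw [Finset.prod_univ_sum, Fintype.piFinset_univ]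
    exact Fintype.sum_equiv e.toEquiv _ _ fun x => rfl
  have hle : ∑ x : ZMod Q, F x ≤ Q * ∏ p ∈ P, (1 + 175 * θ p / p ^ 2) := by
    rw [hsum, ← Finset.prod_coe_sort P (fun p => (1 + 175 * θ p / (p : ℝ) ^ 2)), hQ]
    push_cast
    rw [← Finset.prod_mul_distrib]
    refine Finset.prod_le_prod (fun i _ => Finset.sum_nonneg fun c _ => by positivity) ?_
    intro i _
    refine (sum_pow_le (i : ℕ) (h i i.2)).trans (le_of_eq ?_)
    have : ((i : ℕ) : ℝ) ≠ 0 := by exact_mod_cast (hP i i.2).pos.ne'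
    field_simp
  have hQpos : (0 : ℝ) < Q := by exact_mod_cast Nat.pos_of_ne_zero hQ0.out
  calc ∑ n ∈ range N, ∏ p ∈ P, (10 : ℝ) ^ (BB p n).card = ∑ n ∈ range N, F (n : ZMod Q) :=
        Finset.sum_congr rfl fun n _ => (hFn n).symm
    _ ≤ (N / Q + 1) * ∑ x : ZMod Q, F x := sum_range_le Q N F hF0
    _ ≤ (N / Q + 1) * (Q * ∏ p ∈ P, (1 + 175 * θ p / p ^ 2)) := by
        have : (0 : ℝ) ≤ (N : ℝ) / Q + 1 := by positivity
        exact mul_le_mul_of_nonneg_left hle this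
    _ = (N + ((∏ p ∈ P, p ^ 2 : ℕ) : ℝ)) * ∏ p ∈ P, (1 + 175 * θ p / p ^ 2) := by
        rw [← hQ']
        field_simp

end Pool.Agent.SqTwo
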