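import Pool.Agent.SqTwo.Basic

/-!
# The exceptional set has density zero unless there is a finite covering
-/

set_option autoImplicit false

open Finset Filter Topology

namespace Pool.Agent.SqTwo

/-- a finite system of residue classes of exponents, one class modulo the order of `2` modulo
`p ^ 2` for each `p` in a finite set of odd primes, which covers all exponents -/
def HasCover : Prop := ∃ (P : Finset ℕ) (c : ℕ → ℕ), (∀ p ∈ P, p.Prime ∧ p ≠ 2) ∧
  ∀ l : ℕ, ∃ p ∈ P, l ≡ c p [MOD orderOf (2 : ZMod (p ^ 2))]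

/-- a set of natural numbers has (natural) density zero -/
def DensityZero (A : Set ℕ) : Prop :=
  Tendsto (fun N : ℕ => (({n | n < N ∧ n ∈ A} : Set ℕ).ncard : ℝ) / N) atTop (𝓝 0)

theorem coprime_sq {i j : ℕ} (hi : i.Prime) (hj : j.Prime) (h : i ≠ j) :
    Nat.Coprime (i ^ 2) (j ^ 2) :=
  Nat.Coprime.pow _ _ ((Nat.coprime_primes hi hj).2 h)

/-- the exceptional integers which are exceptional because of a finite set of odd primes -/
def cov : Set ℕ := {n | 1 < n ∧ ¬ 4 ∣ n ∧ ∃ P : Finset ℕ, (∀ p ∈ P, p.Prime ∧ p ≠ 2) ∧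
  ∀ l : ℕ, ∃ p ∈ P, n ≡ 2 ^ l [MOD p ^ 2]}

theorem cov_subset : cov ⊆ exc := by
  rintro n ⟨h1, h4, P, hP, h⟩
  refine ⟨h1, h4, not_rep_of_cover fun l => ?_⟩
  obtain ⟨p, hp, hl⟩ := h l
  exact ⟨p, (hP p hp).1, hl⟩

theorem cov_ap {n : ℕ} (hn : n ∈ cov) : ∃ q : ℕ, 0 < q ∧ ∀ k, n + q * k ∈ cov := by
  obtain ⟨h1, h4, P, hP, h⟩ := hn
  refine ⟨4 * ∏ i ∈ P, i ^ 2, ?_, ?_⟩
  · exact Nat.mul_pos (by norm_num) (Finset.prod_pos fun i hi => pow_pos (hP i hi).1.pos 2)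
  · intro k
    refine ⟨lt_of_lt_of_le h1 (Nat.le_add_right _ _), ?_, P, hP, ?_⟩
    · intro h4'
      apply h4
      have : 4 ∣ 4 * (∏ i ∈ P, i ^ 2) * k := (Nat.dvd_mul_right 4 _).mul_right k
      exact (Nat.dvd_add_left this).1 h4'
    · intro l
      obtain ⟨p, hp, hl⟩ := h l
      refine ⟨p, hp, ?_⟩
      have hd : p ^ 2 ∣ 4 * (∏ i ∈ P, i ^ 2) * k :=
        ((Finset.dvd_prod_of_mem (fun i => i ^ 2) hp).mul_left 4).mul_right k
      have := hl.add (Nat.modEq_zero_iff_dvd.2 hd)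
      simpa using this

theorem hasCover_of_cov {n : ℕ} (hn : n ∈ cov) : HasCover := by
  classical
  obtain ⟨h1, h4, P, hP, h⟩ := hn
  refine ⟨P, fun p => if h : ∃ b, n ≡ 2 ^ b [MOD p ^ 2] then h.choose else 0, hP, ?_⟩
  intro l
  obtain ⟨p, hp, hl⟩ := h l
  refine ⟨p, hp, ?_⟩
  have hex : ∃ b, n ≡ 2 ^ b [MOD p ^ 2] := ⟨l, hl⟩
  simp only [dif_pos hex]
  exact (pow_modEq_iff (hP p hp).1 (hP p hp).2 _ _).1 (hl.symm.trans hex.choose_spec)

theorem cov_of_cover (h : HasCover) : cov.Nonempty := by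
  classical
  obtain ⟨P, c, hP, hc⟩ := h
  set t : Finset ℕ := insert 2 P with ht
  have hprime : ∀ i ∈ t, i.Prime := by
    intro i hi
    rcases Finset.mem_insert.1 hi with rfl | hi
    · exact Nat.prime_two
    · exact (hP i hi).1
  obtain ⟨x, hx⟩ := Nat.chineseRemainderOfFinset (fun p => if p = 2 then 1 else 2 ^ (c p))
    (fun p => p ^ 2) t (fun i hi => (pow_pos (hprime i hi).pos 2).ne')
    (fun i hi j hj hij => coprime_sq (hprime i hi) (hprime j hj) hij)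
  set q : ℕ := ∏ i ∈ t, i ^ 2 with hq
  have hdvd : ∀ i ∈ t, i ^ 2 ∣ q := fun i hi => Finset.dvd_prod_of_mem _ hi
  have hq0 : 0 < q := Finset.prod_pos fun i hi => pow_pos (hprime i hi).pos 2
  have h4q : 4 ∣ q := by simpa using hdvd 2 (Finset.mem_insert_self 2 P)
  have hmod : ∀ i ∈ t, x + q ≡ (if i = 2 then 1 else 2 ^ (c i)) [MOD i ^ 2] := by
    intro i hi
    have h2 := (hx i hi).add ((Nat.modEq_zero_iff_dvd).2 (hdvd i hi))
    rw [add_zero] at h2
    exact h2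
  refine ⟨x + q, ?_, ?_, P, hP, ?_⟩
  · have : 4 ≤ q := Nat.le_of_dvd hq0 h4q
    omega
  · intro h4
    have h1 := hmod 2 (Finset.mem_insert_self 2 P)
    rw [if_pos rfl] at h1
    have h2 : (x + q) % 4 = 1 % 4 := by simpa [Nat.ModEq] using h1
    omega
  · intro l
    obtain ⟨p, hp, hl⟩ := hc l
    refine ⟨p, hp, ?_⟩
    have h1 := hmod p (Finset.mem_insert_of_mem hp)
    rw [if_neg (hP p hp).2] at h1
    exact h1.trans ((pow_modEq_iff (hP p hp).1 (hP p hp).2 l (c p)).2 hl).symm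

theorem not_densityZero_of_ap {A : Set ℕ} {a q : ℕ} (hq : 0 < q) (h : ∀ k, a + q * k ∈ A) :
    ¬ DensityZero A := by
  intro hd
  have h1 : Tendsto (fun m : ℕ => a + q * m) atTop atTop := by
    apply tendsto_atTop_mono (f := fun m : ℕ => m)
    · intro m; nlinarith [Nat.zero_le a, Nat.zero_le m]
    · exact tendsto_id
  have h2 := hd.comp h1
  have h3 : ∀ᶠ m : ℕ in atTop, (1 : ℝ) / (a + q) ≤
      (({n | n < a + q * m ∧ n ∈ A} : Set ℕ).ncard : ℝ) / ((a + q * m : ℕ) : ℝ) := by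
    filter_upwards [eventually_ge_atTop 1] with m hm
    have hcard : m ≤ ({n | n < a + q * m ∧ n ∈ A} : Set ℕ).ncard := by
      have hfin : ({n | n < a + q * m ∧ n ∈ A} : Set ℕ).Finite :=
        (Set.finite_lt_nat (a + q * m)).subset fun n hn => hn.1
      have hinj : Function.Injective fun k : ℕ => a + q * k := by
        intro i j hij
        have : q * i = q * j := by simpa using hij
        exact Nat.eq_of_mul_eq_mul_left hq this
      have hsub : (fun k : ℕ => a + q * k) '' (Set.Iio m) ⊆ {n | n < a + q * m ∧ n ∈ A} := by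
        rintro _ ⟨k, hk, rfl⟩
        refine ⟨?_, h k⟩
        have : q * k < q * m := Nat.mul_lt_mul_of_pos_left hk hq
        show a + q * k < a + q * m
        omega
      have := Set.ncard_le_ncard hsub hfin
      rw [Set.ncard_image_of_injective _ hinj, Set.ncard_Iio_nat] at this
      exact this
    have hpos : (0 : ℝ) < ((a + q * m : ℕ) : ℝ) := by
      have : 0 < a + q * m := by
        have := Nat.mul_pos hq hm; omega
      exact_mod_cast this
    have hpos' : (0 : ℝ) < (a : ℝ) + q := by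
      have : (0 : ℝ) < q := by exact_mod_cast hq
      positivity
    rw [div_le_div_iff₀ hpos' hpos, one_mul]
    have hm' : (1 : ℝ) ≤ m := by exact_mod_cast hm
    have hcard' : (m : ℝ) ≤ (({n | n < a + q * m ∧ n ∈ A} : Set ℕ).ncard : ℝ) := by
      exact_mod_cast hcard
    have ha : (0 : ℝ) ≤ a := Nat.cast_nonneg a
    have hq' : (0 : ℝ) < q := by exact_mod_cast hq
    push_cast
    nlinarith [mul_le_mul_of_nonneg_right hcard' hpos'.le]
  have h4 := ge_of_tendsto h2 h3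
  have hpos' : (0 : ℝ) < (a : ℝ) + q := by
    have : (0 : ℝ) < q := by exact_mod_cast hq
    positivity
  have : (0 : ℝ) < 1 / ((a : ℝ) + q) := by positivity
  linarith

/-- every power of two is congruent to `n` modulo the square of a prime of `P` -/
def CovBy (P : Finset ℕ) (n : ℕ) : Prop := ∀ l : ℕ, ∃ p ∈ P, n ≡ 2 ^ l [MOD p ^ 2]

/-- the odd primes up to `y` -/
def PP (y : ℕ) : Finset ℕ := (Finset.range (y + 1)).filter (fun p => p.Prime ∧ p ≠ 2)

theorem mem_PP {y p : ℕ} : p ∈ PP y ↔ p ≤ y ∧ p.Prime ∧ p ≠ 2 := by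
  rw [PP, Finset.mem_filter, Finset.mem_range, Nat.lt_succ_iff]

theorem exists_uncovered {P : Finset ℕ} (hP : ∀ p ∈ P, p.Prime ∧ p ≠ 2) (c : ℕ)
    (h : ¬ CovBy P c) : ∃ l, 2 ≤ l ∧ ∀ p ∈ P, ¬ c ≡ 2 ^ l [MOD p ^ 2] := by
  unfold CovBy at h
  push Not at h
  obtain ⟨l, hl⟩ := h
  set M : ℕ := ∏ p ∈ P, orderOf (2 : ZMod (p ^ 2)) with hM
  have hM0 : 0 < M := Finset.prod_pos fun p hp =>
    (isOfFinOrder_two (hP p hp).1 (hP p hp).2).orderOf_pos
  refine ⟨l + 2 * M, by omega, ?_⟩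
  intro p hp hc
  apply hl p hp
  refine hc.trans ((pow_modEq_iff (hP p hp).1 (hP p hp).2 _ _).2 ?_)
  have hd : orderOf (2 : ZMod (p ^ 2)) ∣ 2 * M := (Finset.dvd_prod_of_mem _ hp).mul_left 2
  have := (Nat.modEq_zero_iff_dvd.2 hd).add_left l
  simpa using this

/-- the number of exceptional integers below `N` which are not covered by the primes up to `y` -/
theorem exists_bound {y : ℕ} (hy0 : 0 < y) : ∃ M Q : ℕ, ∀ N : ℕ,
    (({n | n < N ∧ n ∈ exc ∧ ¬ CovBy (PP y) n} : Set ℕ).ncard : ℝ) ≤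
      M + N * (y : ℝ)⁻¹ + Q * Nat.sqrt N := by
  classical
  set P : Finset ℕ := PP y with hPdef
  have hP : ∀ p ∈ P, p.Prime ∧ p ≠ 2 := fun p hp => (mem_PP.1 hp).2
  set Q : ℕ := ∏ p ∈ P, p ^ 2 with hQdef
  have hQ0 : 0 < Q := Finset.prod_pos fun p hp => pow_pos (hP p hp).1.pos 2
  have hex : ∀ c : ℕ, ∃ l, 2 ≤ l ∧ (¬ CovBy P c → ∀ p ∈ P, ¬ c ≡ 2 ^ l [MOD p ^ 2]) := by
    intro c
    by_cases hc : CovBy P c
    · exact ⟨2, le_rfl, fun h => absurd hc h⟩
    · obtain ⟨l, h1, h2⟩ := exists_uncovered hP c hc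
      exact ⟨l, h1, fun _ => h2⟩
  choose l0 hl0 hl0' using hex
  set M : ℕ := ∑ c ∈ Finset.range Q, 2 ^ l0 c with hMdef
  have hM : ∀ c < Q, 2 ^ l0 c ≤ M := fun c hc =>
    Finset.single_le_sum (f := fun c => 2 ^ l0 c) (fun _ _ => Nat.zero_le _)
      (Finset.mem_range.2 hc)
  -- the bad set
  have hsub : ∀ N : ℕ, ({n | n < N ∧ n ∈ exc ∧ ¬ CovBy P n} : Set ℕ) ⊆
      ((Finset.range M ∪ (Finset.range Q).biUnion fun c =>
        ((Finset.Ioc y (Nat.sqrt N)).filter Nat.Prime).biUnion fun p =>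
          (Finset.range N).filter fun n => n ≡ c [MOD Q] ∧ n ≡ 2 ^ l0 c [MOD p ^ 2] : Finset ℕ)
          : Set ℕ) := by
    rintro N n ⟨hnN, hn, hnc⟩
    rw [Finset.mem_coe, Finset.mem_union]
    by_cases hnM : n < M
    · exact Or.inl (Finset.mem_range.2 hnM)
    · right
      push Not at hnM
      have hc : n % Q < Q := Nat.mod_lt _ hQ0
      have hle : 2 ^ l0 (n % Q) ≤ n := (hM _ hc).trans hnM
      obtain ⟨p, hp, hp2, hd⟩ := exists_prime_of_exc hn (hl0 _) hle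
      have hmod : n ≡ 2 ^ l0 (n % Q) [MOD p ^ 2] := modEq_of_dvd hle hd
      have hcc : ¬ CovBy P (n % Q) := by
        intro hcov
        apply hnc
        intro l
        obtain ⟨p, hp, hl⟩ := hcov l
        refine ⟨p, hp, ?_⟩
        have h1 : n % Q ≡ n [MOD p ^ 2] :=
          (Nat.mod_modEq n Q).of_dvd (Finset.dvd_prod_of_mem (fun p => p ^ 2) hp)
        exact h1.symm.trans hl
      have hpP : p ∉ P := by
        intro hpP
        apply hl0' (n % Q) hcc p hpP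
        have h1 : n % Q ≡ n [MOD p ^ 2] :=
          (Nat.mod_modEq n Q).of_dvd (Finset.dvd_prod_of_mem (fun p => p ^ 2) hpP)
        exact h1.trans hmod
      have hyp : y < p := by
        by_contra hcon
        push Not at hcon
        exact hpP (mem_PP.2 ⟨hcon, hp, hp2⟩)
      have hpos : 0 < n - 2 ^ l0 (n % Q) := by
        rcases Nat.eq_zero_or_pos (n - 2 ^ l0 (n % Q)) with h0 | h0
        · exfalso
          have heq : n = 2 ^ l0 (n % Q) := by omega
          apply hn.2.1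
          rw [heq]
          have : 2 ^ 2 ∣ 2 ^ l0 (n % Q) := pow_dvd_pow 2 (hl0 _)
          simpa using this
        · exact h0
      have hple : p ^ 2 ≤ N := by
        exact ((Nat.le_of_dvd hpos hd).trans (Nat.sub_le _ _)).trans (le_of_lt hnN)
      have hsq : p ≤ Nat.sqrt N := Nat.le_sqrt'.2 hple
      rw [Finset.mem_biUnion]
      refine ⟨n % Q, Finset.mem_range.2 hc, ?_⟩
      rw [Finset.mem_biUnion]
      refine ⟨p, Finset.mem_filter.2 ⟨Finset.mem_Ioc.2 ⟨hyp, hsq⟩, hp⟩, ?_⟩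
      exact Finset.mem_filter.2 ⟨Finset.mem_range.2 hnN, (Nat.mod_modEq n Q).symm, hmod⟩
  have hcop : ∀ p : ℕ, y < p → p.Prime → Nat.Coprime Q (p ^ 2) := by
    intro p hyp hp
    apply Nat.Coprime.prod_left
    intro i hi
    refine coprime_sq (hP i hi).1 hp ?_
    rintro rfl
    have := (mem_PP.1 hi).1
    omega
  have hcount : ∀ N : ℕ, ∀ c : ℕ, ∀ p : ℕ, y < p → p.Prime →
      (((Finset.range N).filter fun n => n ≡ c [MOD Q] ∧ n ≡ 2 ^ l0 c [MOD p ^ 2]).card : ℝ) ≤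
        N / Q * ((p : ℝ) ^ 2)⁻¹ + 1 := by
    intro N c p hyp hp
    obtain ⟨x, hx1, hx2⟩ := Nat.chineseRemainder (hcop p hyp hp) c (2 ^ l0 c)
    have hs : ((Finset.range N).filter fun n => n ≡ c [MOD Q] ∧ n ≡ 2 ^ l0 c [MOD p ^ 2]) ⊆
        (Finset.range N).filter fun n => n ≡ x [MOD Q * p ^ 2] := by
      intro n hn
      rw [Finset.mem_filter] at hn ⊢
      refine ⟨hn.1, ?_⟩
      exact (Nat.modEq_and_modEq_iff_modEq_mul (hcop p hyp hp)).1
        ⟨hn.2.1.trans hx1.symm, hn.2.2.trans hx2.symm⟩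
    have h1 : (((Finset.range N).filter fun n => n ≡ c [MOD Q] ∧ n ≡ 2 ^ l0 c [MOD p ^ 2]).card
        : ℝ) ≤ (((Finset.range N).filter fun n => n ≡ x [MOD Q * p ^ 2]).card : ℝ) := by
      exact_mod_cast Finset.card_le_card hs
    refine h1.trans ((card_modEq_le N x (Q * p ^ 2) (Nat.mul_pos hQ0 (pow_pos hp.pos 2))).trans
      (le_of_eq ?_))
    push_cast
    rw [← div_div, div_eq_mul_inv ((N : ℝ) / Q)]
  have hbound : ∀ N : ℕ, (({n | n < N ∧ n ∈ exc ∧ ¬ CovBy P n} : Set ℕ).ncard : ℝ) ≤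
      M + N * (y : ℝ)⁻¹ + Q * Nat.sqrt N := by
    intro N
    have h1 : ({n | n < N ∧ n ∈ exc ∧ ¬ CovBy P n} : Set ℕ).ncard ≤ _ :=
      Set.ncard_le_ncard (hsub N) (Finset.finite_toSet _)
    rw [Set.ncard_coe_finset] at h1
    have h2 : (({n | n < N ∧ n ∈ exc ∧ ¬ CovBy P n} : Set ℕ).ncard : ℝ) ≤
        M + ∑ c ∈ Finset.range Q, ∑ p ∈ (Finset.Ioc y (Nat.sqrt N)).filter Nat.Prime,
          (N / Q * ((p : ℝ) ^ 2)⁻¹ + 1) := by
      refine (Nat.cast_le.2 h1).trans ?_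
      refine (Nat.cast_le.2 (Finset.card_union_le _ _)).trans ?_
      rw [Nat.cast_add, Finset.card_range]
      gcongr
      refine (Nat.cast_le.2 Finset.card_biUnion_le).trans ?_
      rw [Nat.cast_sum]
      refine Finset.sum_le_sum fun c _ => ?_
      refine (Nat.cast_le.2 Finset.card_biUnion_le).trans ?_
      rw [Nat.cast_sum]
      refine Finset.sum_le_sum fun p hp => ?_
      have hp' := Finset.mem_filter.1 hp
      exact hcount N c p (Finset.mem_Ioc.1 hp'.1).1 hp'.2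
    refine h2.trans ?_
    rw [Finset.sum_const, Finset.card_range, nsmul_eq_mul, add_assoc]
    gcongr
    have h3 : ∑ p ∈ (Finset.Ioc y (Nat.sqrt N)).filter Nat.Prime,
        ((N : ℝ) / Q * ((p : ℝ) ^ 2)⁻¹ + 1) ≤ N / Q * (y : ℝ)⁻¹ + Nat.sqrt N := by
      have h4 : ∑ p ∈ (Finset.Ioc y (Nat.sqrt N)).filter Nat.Prime,
        ((N : ℝ) / Q * ((p : ℝ) ^ 2)⁻¹ + 1) ≤ ∑ p ∈ Finset.Ioc y (Nat.sqrt N),
        ((N : ℝ) / Q * ((p : ℝ) ^ 2)⁻¹ + 1) :=
        Finset.sum_le_sum_of_subset_of_nonneg (Finset.filter_subset _ _)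
          fun _ _ _ => by positivity
      refine h4.trans ?_
      rw [Finset.sum_add_distrib, ← Finset.mul_sum, Finset.sum_const, nsmul_eq_mul, mul_one,
        Nat.card_Ioc]
      have h5 : ∑ p ∈ Finset.Ioc y (Nat.sqrt N), ((p : ℝ) ^ 2)⁻¹ ≤ (y : ℝ)⁻¹ := by
        rcases le_total y (Nat.sqrt N) with hle | hle
        · refine (sum_Ioc_inv_sq_le_sub hy0.ne' hle).trans ?_
          have : (0 : ℝ) ≤ ((Nat.sqrt N : ℕ) : ℝ)⁻¹ := by positivity
          linarith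
        · rw [Finset.Ioc_eq_empty_of_le hle, Finset.sum_empty]; positivity
      have h6 : (((Nat.sqrt N - y : ℕ)) : ℝ) ≤ Nat.sqrt N := by
        exact_mod_cast Nat.sub_le _ _
      gcongr
    have hQ' : (0 : ℝ) < Q := by exact_mod_cast hQ0
    calc (Q : ℝ) * ∑ p ∈ (Finset.Ioc y (Nat.sqrt N)).filter Nat.Prime,
        ((N : ℝ) / Q * ((p : ℝ) ^ 2)⁻¹ + 1) ≤ Q * (N / Q * (y : ℝ)⁻¹ + Nat.sqrt N) := by gcongr
      _ = N * (y : ℝ)⁻¹ + Q * Nat.sqrt N := by field_simp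
  exact ⟨M, Q, hbound⟩

end Pool.Agent.SqTwo
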