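import Pool.Agent.SqTwo.Cover

/-!
# The natural density of the exceptional set
-/

set_option autoImplicit false

open Finset Filter Topology

namespace Pool.Agent.SqTwo

/-- the number of elements of `A` below `N` -/
noncomputable def cnt (A : Set ℕ) (N : ℕ) : ℝ := (({n | n < N ∧ n ∈ A} : Set ℕ).ncard : ℝ)

theorem finite_lt (A : Set ℕ) (N : ℕ) : ({n | n < N ∧ n ∈ A} : Set ℕ).Finite :=
  (Set.finite_lt_nat N).subset fun _ hn => hn.1

theorem cnt_mono {A B : Set ℕ} (h : A ⊆ B) (N : ℕ) : cnt A N ≤ cnt B N := by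
  unfold cnt
  have h1 : ({n | n < N ∧ n ∈ A} : Set ℕ) ⊆ {n | n < N ∧ n ∈ B} := fun n hn => ⟨hn.1, h hn.2⟩
  exact_mod_cast Set.ncard_le_ncard h1 (finite_lt B N)

theorem cnt_nonneg (A : Set ℕ) (N : ℕ) : 0 ≤ cnt A N := Nat.cast_nonneg _

theorem cnt_union_le {A B C : Set ℕ} (h : A ⊆ B ∪ C) (N : ℕ) : cnt A N ≤ cnt B N + cnt C N := by
  unfold cnt
  have h1 : ({n | n < N ∧ n ∈ A} : Set ℕ) ⊆ {n | n < N ∧ n ∈ B} ∪ {n | n < N ∧ n ∈ C} := by
    intro n hn
    rcases h hn.2 with h' | h'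
    · exact Or.inl ⟨hn.1, h'⟩
    · exact Or.inr ⟨hn.1, h'⟩
  have h2 := Set.ncard_le_ncard h1 ((finite_lt B N).union (finite_lt C N))
  exact_mod_cast h2.trans (Set.ncard_union_le _ _)

theorem cnt_singleton_le (m N : ℕ) : cnt {m} N ≤ 1 := by
  unfold cnt
  have h1 : ({n | n < N ∧ n ∈ ({m} : Set ℕ)} : Set ℕ) ⊆ {m} := fun n hn => hn.2
  have h2 := Set.ncard_le_ncard h1 (Set.finite_singleton m)
  rw [Set.ncard_singleton] at h2
  exact_mod_cast h2

/-- a periodic set has a natural density, with bounded error -/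
theorem cnt_periodic (A : Set ℕ) (R : ℕ) (hR : 0 < R) (hA : ∀ n, n + R ∈ A ↔ n ∈ A) :
    ∃ κ : ℝ, ∀ N : ℕ, |cnt A N - κ * N| ≤ R := by
  classical
  have hcnt : ∀ N, cnt A N = (Nat.count (fun n => n ∈ A) N : ℝ) := by
    intro N
    unfold cnt
    rw [Nat.count_eq_card_filter_range, ← Set.ncard_coe_finset]
    congr 2
    ext n
    simp
  have hper : ∀ k n, R * k + n ∈ A ↔ n ∈ A := by
    intro k
    induction k with
    | zero => intro n; simp
    | succ k ih =>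
      intro n
      have : R * (k + 1) + n = (R * k + n) + R := by ring
      rw [this, hA, ih]
  have hmul : ∀ k, Nat.count (fun n => n ∈ A) (R * k) = k * Nat.count (fun n => n ∈ A) R := by
    intro k
    induction k with
    | zero => simp
    | succ k ih =>
      rw [Nat.mul_succ, Nat.count_add, ih, Nat.succ_mul]
      congr 1
      apply Nat.count_eq_card_filter_range _ _ |>.trans
      rw [Nat.count_eq_card_filter_range]
      congr 1
      apply Finset.filter_congr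
      intro n _
      exact hper k n
  set c : ℕ := Nat.count (fun n => n ∈ A) R with hc
  refine ⟨(c : ℝ) / R, fun N => ?_⟩
  rw [hcnt]
  have hR' : (0 : ℝ) < R := by exact_mod_cast hR
  have hcR : (c : ℝ) ≤ R := by exact_mod_cast Nat.count_le _
  have hN := Nat.div_add_mod N R
  have h1 : Nat.count (fun n => n ∈ A) N =
      (N / R) * c + Nat.count (fun n => n ∈ A) (N % R) := by
    conv_lhs => rw [← hN]
    rw [Nat.count_add, hmul]
    congr 1
    rw [Nat.count_eq_card_filter_range, Nat.count_eq_card_filter_range]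
    congr 1
    apply Finset.filter_congr
    intro n _
    exact hper _ n
  have h2 : (Nat.count (fun n => n ∈ A) (N % R) : ℝ) ≤ (N % R : ℕ) := by
    exact_mod_cast Nat.count_le _
  have h3 : ((N % R : ℕ) : ℝ) ≤ R := by exact_mod_cast (Nat.mod_lt N hR).le
  have h4 : (N : ℝ) = R * ((N / R : ℕ) : ℝ) + ((N % R : ℕ) : ℝ) := by exact_mod_cast hN.symm
  have h5 : (c : ℝ) / R * N = ((N / R : ℕ) : ℝ) * c + (c : ℝ) / R * ((N % R : ℕ) : ℝ) := by
    rw [h4]; field_simp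
  have h6 : (c : ℝ) / R * ((N % R : ℕ) : ℝ) ≤ R := by
    have : (c : ℝ) / R ≤ 1 := by rw [div_le_one hR']; exact hcR
    calc (c : ℝ) / R * ((N % R : ℕ) : ℝ) ≤ 1 * ((N % R : ℕ) : ℝ) := by gcongr
      _ ≤ R := by rw [one_mul]; exact h3
  have h7 : (0 : ℝ) ≤ (c : ℝ) / R * ((N % R : ℕ) : ℝ) := by positivity
  have h8 : (0 : ℝ) ≤ (Nat.count (fun n => n ∈ A) (N % R) : ℝ) := by positivity
  rw [h5, h1]
  push_cast
  rw [abs_le]
  constructor <;> linarith

/-- the periodic set of the integers not divisible by four which are covered by the primes up to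
`y` -/
def AA (y : ℕ) : Set ℕ := {n | ¬ 4 ∣ n ∧ CovBy (PP y) n}

theorem AA_periodic (y : ℕ) : ∃ R : ℕ, 0 < R ∧ ∀ n, n + R ∈ AA y ↔ n ∈ AA y := by
  refine ⟨4 * ∏ p ∈ PP y, p ^ 2, ?_, ?_⟩
  · exact Nat.mul_pos (by norm_num)
      (Finset.prod_pos fun p hp => pow_pos (mem_PP.1 hp).2.1.pos 2)
  · intro n
    have h4 : 4 ∣ n + 4 * ∏ p ∈ PP y, p ^ 2 ↔ 4 ∣ n :=
      Nat.dvd_add_left (Nat.dvd_mul_right 4 _)
    have hm : ∀ p ∈ PP y, n + 4 * ∏ p ∈ PP y, p ^ 2 ≡ n [MOD p ^ 2] := by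
      intro p hp
      have hd : p ^ 2 ∣ 4 * ∏ p ∈ PP y, p ^ 2 :=
        (Finset.dvd_prod_of_mem (fun i => i ^ 2) hp).mul_left 4
      have := (Nat.modEq_zero_iff_dvd.2 hd).add_left n
      simpa using this
    unfold AA CovBy
    constructor
    · rintro ⟨h1, h2⟩
      refine ⟨fun h => h1 (h4.2 h), fun l => ?_⟩
      obtain ⟨p, hp, hl⟩ := h2 l
      exact ⟨p, hp, (hm p hp).symm.trans hl⟩
    · rintro ⟨h1, h2⟩
      refine ⟨fun h => h1 (h4.1 h), fun l => ?_⟩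
      obtain ⟨p, hp, hl⟩ := h2 l
      exact ⟨p, hp, (hm p hp).trans hl⟩

theorem AA_subset (y : ℕ) : AA y ⊆ exc ∪ {1} := by
  rintro n ⟨h4, hc⟩
  rcases Nat.lt_or_ge 1 n with h | h
  · left
    exact cov_subset ⟨h, h4, PP y, fun p hp => (mem_PP.1 hp).2, hc⟩
  · right
    have : n ≠ 0 := by rintro rfl; simp at h4
    show n = 1
    omega

/-- error term -/
theorem exists_eventually {y : ℕ} (hy0 : 0 < y) (M Q : ℝ) :
    ∃ N₀ : ℕ, 0 < N₀ ∧ ∀ N : ℕ, N₀ ≤ N → M + N * (y : ℝ)⁻¹ + Q * Nat.sqrt N ≤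
      2 * (y : ℝ)⁻¹ * N := by
  have hy : (0 : ℝ) < (y : ℝ)⁻¹ := by
    have : (0 : ℝ) < y := by exact_mod_cast hy0
    positivity
  obtain ⟨N1, hN1⟩ := exists_nat_gt (2 * |M| / (y : ℝ)⁻¹)
  obtain ⟨N2, hN2⟩ := exists_nat_gt ((2 * |Q| / (y : ℝ)⁻¹) ^ 2)
  refine ⟨N1 + N2 + 1, Nat.succ_pos _, fun N hN => ?_⟩
  have hN0 : (0 : ℝ) ≤ N := Nat.cast_nonneg N
  have e1 : M ≤ (y : ℝ)⁻¹ / 2 * N := by
    have : (N1 : ℝ) ≤ N := by exact_mod_cast (by omega : N1 ≤ N)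
    have h3 : 2 * |M| / (y : ℝ)⁻¹ < N := hN1.trans_le this
    rw [div_lt_iff₀ hy] at h3
    have := le_abs_self M
    linarith
  have e3 : Q * Nat.sqrt N ≤ (y : ℝ)⁻¹ / 2 * N := by
    have h3 : ((Nat.sqrt N : ℕ) : ℝ) ^ 2 ≤ N := by exact_mod_cast Nat.sqrt_le' N
    have h4 : ((Nat.sqrt N : ℕ) : ℝ) ≤ Real.sqrt N := Real.le_sqrt_of_sq_le h3
    have h5 : (2 * |Q| / (y : ℝ)⁻¹) ^ 2 ≤ N := by
      have : (N2 : ℝ) ≤ N := by exact_mod_cast (by omega : N2 ≤ N)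
      exact hN2.le.trans this
    have h6 : 2 * |Q| / (y : ℝ)⁻¹ ≤ Real.sqrt N := Real.le_sqrt_of_sq_le h5
    have h7 : |Q| ≤ (y : ℝ)⁻¹ / 2 * Real.sqrt N := by
      rw [div_le_iff₀ hy] at h6
      linarith
    calc Q * Nat.sqrt N ≤ |Q| * Nat.sqrt N := by
          gcongr; exact le_abs_self Q
      _ ≤ ((y : ℝ)⁻¹ / 2 * Real.sqrt N) * Real.sqrt N := by gcongr
      _ = (y : ℝ)⁻¹ / 2 * N := by rw [mul_assoc, Real.mul_self_sqrt hN0]
  linarith

/-- up to a set of density zero, the exceptional integers are covered by finitely many primes -/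
theorem densityZero_diff : DensityZero (exc \ cov) := by
  rw [DensityZero, Metric.tendsto_atTop]
  intro ε hε
  obtain ⟨y, hy⟩ := exists_nat_gt (2 / ε)
  have hy' : (0 : ℝ) < y := lt_trans (by positivity) hy
  have hy0 : 0 < y := by exact_mod_cast hy'
  obtain ⟨M, Q, hMQ⟩ := exists_bound hy0
  obtain ⟨N₀, hN₀, hN⟩ := exists_eventually hy0 M Q
  refine ⟨N₀, fun N hNN => ?_⟩
  have hNpos : (0 : ℝ) < N := by
    have : 0 < N := lt_of_lt_of_le hN₀ hNN
    exact_mod_cast this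
  rw [Real.dist_eq, sub_zero, abs_of_nonneg (by positivity), div_lt_iff₀ hNpos]
  have hsub : exc \ cov ⊆ {n | n ∈ exc ∧ ¬ CovBy (PP y) n} := by
    rintro n ⟨h1, h2⟩
    exact ⟨h1, fun h => h2 ⟨h1.1, h1.2.1, PP y, fun p hp => (mem_PP.1 hp).2, h⟩⟩
  have h1 := (cnt_mono hsub N).trans ((hMQ N).trans (hN N hNN))
  refine lt_of_le_of_lt h1 ?_
  have h2 : 2 * (y : ℝ)⁻¹ < ε := by
    rw [← div_eq_mul_inv, div_lt_comm₀ hy' hε]
    exact hy
  exact mul_lt_mul_of_pos_right h2 hNpos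

theorem exists_density : ∃ δ : ℝ,
    Tendsto (fun N : ℕ => (({n | n < N ∧ n ∈ exc} : Set ℕ).ncard : ℝ) / N) atTop (𝓝 δ) := by
  apply cauchySeq_tendsto_of_complete
  rw [Metric.cauchySeq_iff']
  intro ε hε
  obtain ⟨y, hy⟩ := exists_nat_gt (6 / ε)
  have hy' : (0 : ℝ) < y := lt_trans (by positivity) hy
  have hy0 : 0 < y := by exact_mod_cast hy'
  obtain ⟨M, Q, hMQ⟩ := exists_bound hy0
  obtain ⟨R, hR, hper⟩ := AA_periodic y
  obtain ⟨κ, hκ⟩ := cnt_periodic (AA y) R hR hper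
  obtain ⟨N₀, hN₀, hN⟩ := exists_eventually hy0 (M + R + 1) Q
  have key : ∀ N, N₀ ≤ N → |(({n | n < N ∧ n ∈ exc} : Set ℕ).ncard : ℝ) / N - κ| ≤
      2 * (y : ℝ)⁻¹ := by
    intro N hNN
    have hNpos : (0 : ℝ) < N := by
      have : 0 < N := lt_of_lt_of_le hN₀ hNN
      exact_mod_cast this
    have h1 : cnt exc N ≤ cnt (AA y) N + (M + N * (y : ℝ)⁻¹ + Q * Nat.sqrt N) := by
      have hsub : exc ⊆ AA y ∪ {n | n ∈ exc ∧ ¬ CovBy (PP y) n} := by
        intro n hn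
        by_cases hc : CovBy (PP y) n
        · exact Or.inl ⟨hn.2.1, hc⟩
        · exact Or.inr ⟨hn, hc⟩
      exact (cnt_union_le hsub N).trans (add_le_add_right (hMQ N) _)
    have h2 : cnt (AA y) N ≤ cnt exc N + 1 :=
      (cnt_union_le (AA_subset y) N).trans (add_le_add_right (cnt_singleton_le 1 N) _)
    have h3 := hκ N
    rw [abs_le] at h3
    have h4 := hN N hNN
    have hy2 : (0 : ℝ) ≤ N * (y : ℝ)⁻¹ + Q * Nat.sqrt N := by positivity
    have hM0 : (0 : ℝ) ≤ M := Nat.cast_nonneg M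
    have h5 : |cnt exc N - κ * N| ≤ 2 * (y : ℝ)⁻¹ * N := by
      rw [abs_le]
      constructor <;> linarith [h3.1, h3.2]
    have h6 : (({n | n < N ∧ n ∈ exc} : Set ℕ).ncard : ℝ) / N - κ = (cnt exc N - κ * N) / N := by
      unfold cnt
      field_simp
    rw [h6, abs_div, abs_of_pos hNpos, div_le_iff₀ hNpos]
    exact h5
  refine ⟨N₀, fun N hNN => ?_⟩
  rw [Real.dist_eq]
  have h1 := key N hNN
  have h2 := key N₀ le_rfl
  have h3 : 4 * (y : ℝ)⁻¹ < ε := by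
    have h4 : 6 * (y : ℝ)⁻¹ < ε := by
      rw [← div_eq_mul_inv, div_lt_comm₀ hy' hε]
      exact hy
    have h5 : (0 : ℝ) < (y : ℝ)⁻¹ := by positivity
    linarith
  rw [abs_le] at h1 h2
  rw [abs_lt]
  constructor <;> linarith [h1.1, h1.2, h2.1, h2.2]

theorem cov_nonempty_iff : cov.Nonempty ↔ HasCover :=
  ⟨fun ⟨_, hn⟩ => hasCover_of_cov hn, cov_of_cover⟩

theorem densityZero_iff : DensityZero exc ↔ ¬ HasCover := by
  constructor
  · intro h hc
    obtain ⟨n, hn⟩ := cov_of_cover hc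
    obtain ⟨q, hq, hk⟩ := cov_ap hn
    exact not_densityZero_of_ap hq (fun k => cov_subset (hk k)) h
  · intro h
    have hemp : cov = ∅ := by
      rw [← Set.not_nonempty_iff_eq_empty, cov_nonempty_iff]
      exact h
    have := densityZero_diff
    rwa [hemp, Set.sdiff_empty] at this

end Pool.Agent.SqTwo
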