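import Pool.Agent.SqTwo.Basic

/-!
# Gaps between exponents `l` with `p ^ 2 ∣ n - 2 ^ l`
-/

set_option autoImplicit false

open Finset

namespace Pool.Agent.SqTwo

/-- no power `2 ^ j`, `0 < j < g`, is `1` modulo `p ^ 2` -/
def Gap (p g : ℕ) : Prop := ∀ j, 0 < j → j < g → ¬ 2 ^ j % p ^ 2 = 1

/-- the window of exponents -/
def II : Finset ℕ := Finset.Ico 2 177

/-- the exponents of the window which are blocked by `p` -/
def BB (p n : ℕ) : Finset ℕ := II.filter fun l => n ≡ 2 ^ l [MOD p ^ 2]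

theorem card_BB_le {p g : ℕ} (hp : p.Prime) (hp2 : p ≠ 2) (hg : 0 < g) (h : Gap p g) (n : ℕ) :
    (BB p n).card ≤ 174 / g + 1 := by
  have hlt : ∀ l l' : ℕ, n ≡ 2 ^ l [MOD p ^ 2] → n ≡ 2 ^ l' [MOD p ^ 2] → l < l' → g ≤ l' - l := by
    intro l l' h1 h2 hll
    by_contra hcon
    push Not at hcon
    apply h (l' - l) (by omega) hcon
    have h3 : 2 ^ l * 2 ^ (l' - l) ≡ 2 ^ l * 1 [MOD p ^ 2] := by
      rw [← pow_add, mul_one]
      have : l + (l' - l) = l' := by omega
      rw [this]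
      exact h2.symm.trans h1
    have hc : Nat.Coprime (p ^ 2) (2 ^ l) :=
      Nat.Coprime.pow _ _ ((Nat.coprime_primes hp Nat.prime_two).2 hp2)
    have h4 := Nat.ModEq.cancel_left_of_coprime hc h3
    have h5 : 1 < p ^ 2 := Nat.one_lt_pow (by norm_num) hp.one_lt
    have h6 : 2 ^ (l' - l) % p ^ 2 = 1 % p ^ 2 := h4
    rwa [Nat.mod_eq_of_lt h5] at h6
  have hmap : ∀ l ∈ BB p n, (l - 2) / g ∈ Finset.range (174 / g + 1) := by
    intro l hl
    have h1 := Finset.mem_Ico.1 (Finset.mem_filter.1 hl).1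
    rw [Finset.mem_range, Nat.lt_succ_iff]
    exact Nat.div_le_div_right (by omega)
  have hinj : Set.InjOn (fun l => (l - 2) / g) (BB p n : Set ℕ) := by
    intro l hl l' hl' he
    have h1 := (Finset.mem_filter.1 hl)
    have h2 := (Finset.mem_filter.1 hl')
    have i1 := Finset.mem_Ico.1 h1.1
    have i2 := Finset.mem_Ico.1 h2.1
    have he' : (l - 2) / g = (l' - 2) / g := he
    have e1 := Nat.div_add_mod (l - 2) g
    have e2 := Nat.div_add_mod (l' - 2) g
    have m1 := Nat.mod_lt (l - 2) hg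
    have m2 := Nat.mod_lt (l' - 2) hg
    rw [he'] at e1
    rcases lt_trichotomy l l' with hll | hll | hll
    · have := hlt l l' h1.2 h2.2 hll
      omega
    · exact hll
    · have := hlt l' l h2.2 h1.2 hll
      omega
  have := Finset.card_le_card_of_injOn _ hmap hinj
  rwa [Finset.card_range] at this

instance (p g : ℕ) : Decidable (∀ j < g, 0 < j → ¬ 2 ^ j % p ^ 2 = 1) := inferInstance

theorem gap_of {p g : ℕ} (h : ∀ j < g, 0 < j → ¬ 2 ^ j % p ^ 2 = 1) : Gap p g :=
  fun j h0 h1 => h j h1 h0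

theorem gap_3 : Gap 3 6 := gap_of (by decide +kernel)
theorem gap_5 : Gap 5 20 := gap_of (by decide +kernel)
theorem gap_7 : Gap 7 21 := gap_of (by decide +kernel)
theorem gap_11 : Gap 11 88 := gap_of (by decide +kernel)
theorem gap_13 : Gap 13 88 := gap_of (by decide +kernel)
theorem gap_17 : Gap 17 88 := gap_of (by decide +kernel)
theorem gap_31 : Gap 31 88 := gap_of (by decide +kernel)
theorem gap_1093 : Gap 1093 175 := gap_of (by decide +kernel)
theorem gap_3511 : Gap 3511 175 := gap_of (by decide +kernel)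

theorem gap_small : ∀ m < 175, 19 ≤ m → m ≠ 31 → Nat.gcd m 30030 = 1 →
    ∀ j < 175, 0 < j → ¬ 2 ^ j % m ^ 2 = 1 := by
  decide +kernel

/-- `2 ^ e % m ^ 2` -/
def pw (m e : ℕ) : ℕ :=
  (((2 ^ 1024) % (m * m)) ^ (e / 1024) % (m * m) * 2 ^ (e % 1024)) % (m * m)

theorem pw_eq (m e : ℕ) : pw m e = 2 ^ e % m ^ 2 := by
  unfold pw
  rw [← pow_two, ← Nat.pow_mod, Nat.mod_mul_mod, ← pow_mul, ← pow_add, Nat.div_add_mod]

/-- the test for one odd number -/
def tst (k : ℕ) : Bool :=
  !(Nat.beq (pw (2 * k + 1) (2 * k)) 1) || Nat.beq k 546 || Nat.beq k 1755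

/-- all tests between `a` and `a + 2 ^ d` -/
noncomputable def bt (d : ℕ) : ℕ → Bool :=
  @Nat.rec (fun _ => ℕ → Bool) (fun a => tst a)
    (fun d ih a => @Bool.rec (fun _ => Bool) false (ih (a + 2 ^ d)) (ih a)) d

theorem bt_spec : ∀ d a : ℕ, bt d a = true → ∀ k < 2 ^ d, tst (a + k) = true := by
  intro d
  induction d with
  | zero =>
    intro a h k hk
    have : k = 0 := by omega
    subst this
    exact h
  | succ d ih =>
    intro a h k hk
    have h1 : @Bool.rec (fun _ => Bool) false (bt d (a + 2 ^ d)) (bt d a) = true := h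
    cases ht : bt d a with
    | false => rw [ht] at h1; exact absurd h1 (by simp)
    | true =>
      rw [ht] at h1
      rcases Nat.lt_or_ge k (2 ^ d) with h2 | h2
      · exact ih a ht k h2
      · have h3 := ih (a + 2 ^ d) h1 (k - 2 ^ d) (by rw [pow_succ] at hk; omega)
        have : a + 2 ^ d + (k - 2 ^ d) = a + k := by omega
        rwa [this] at h3

end Pool.Agent.SqTwo
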