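import Pool.Agent.SqTwo.Gap

/-!
# Gaps for the primes `19 ≤ p < 131072`, `p ≠ 31`, and for the primes `p > 131072`
-/

set_option autoImplicit false

namespace Pool.Agent.SqTwo

theorem bt16 : bt 16 0 = true := by decide +kernel

theorem tst_all {k : ℕ} (hk : k < 65536) : tst k = true := by
  have := bt_spec 16 0 bt16 k (by norm_num; exact hk)
  rwa [Nat.zero_add] at this

theorem not_wieferich {p : ℕ} (hp : p < 131072) (hodd : p % 2 = 1) (h1 : p ≠ 1093)
    (h2 : p ≠ 3511) : ¬ 2 ^ (p - 1) % p ^ 2 = 1 := by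
  have h := tst_all (k := (p - 1) / 2) (by omega)
  have e1 : 2 * ((p - 1) / 2) + 1 = p := by omega
  have e2 : 2 * ((p - 1) / 2) = p - 1 := by omega
  unfold tst at h
  rw [e1, e2] at h
  have h3 : Nat.beq ((p - 1) / 2) 546 = false := by
    apply Bool.eq_false_iff.2
    intro h'
    have := Nat.eq_of_beq_eq_true h'
    omega
  have h4 : Nat.beq ((p - 1) / 2) 1755 = false := by
    apply Bool.eq_false_iff.2
    intro h'
    have := Nat.eq_of_beq_eq_true h'
    omega
  rw [h3, h4, Bool.or_false, Bool.or_false, Bool.not_eq_true'] at h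
  intro hc
  rw [pw_eq, hc] at h
  exact absurd h (by decide)

/-- a prime which is not a Wieferich prime has large gaps -/
theorem gap_of_not_wieferich {p : ℕ} (hp : p.Prime) (h175 : 175 ≤ p)
    (h : ¬ 2 ^ (p - 1) % p ^ 2 = 1) : Gap p 175 := by
  intro j hj0 hj hc
  apply h
  have hp2 : p ≠ 2 := by omega
  have h1 : 1 < p ^ 2 := Nat.one_lt_pow (by norm_num) hp.one_lt
  have hcast : ∀ e : ℕ, 2 ^ e % p ^ 2 = 1 ↔ (2 : ZMod (p ^ 2)) ^ e = 1 := by
    intro e
    have : ((2 ^ e : ℕ) : ZMod (p ^ 2)) = ((1 : ℕ) : ZMod (p ^ 2)) ↔ 2 ^ e ≡ 1 [MOD p ^ 2] :=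
      ZMod.natCast_eq_natCast_iff _ _ _
    push_cast at this
    rw [this, Nat.ModEq, Nat.mod_eq_of_lt h1]
  rw [hcast] at hc ⊢
  have hord : orderOf (2 : ZMod (p ^ 2)) ∣ j := orderOf_dvd_of_pow_eq_one hc
  have hpos : 0 < orderOf (2 : ZMod (p ^ 2)) := (isOfFinOrder_two hp hp2).orderOf_pos
  have hle : orderOf (2 : ZMod (p ^ 2)) ≤ j := Nat.le_of_dvd hj0 hord
  have hphi : (2 : ZMod (p ^ 2)) ^ (p * (p - 1)) = 1 := by
    obtain ⟨u, hu⟩ := two_unit hp hp2
    have h3 := ZMod.pow_totient u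
    have h4 : Nat.totient (p ^ 2) = p * (p - 1) := by
      rw [Nat.totient_prime_pow hp (by norm_num)]
      simp
    rw [h4] at h3
    rw [← hu, ← Units.val_pow_eq_pow_val, h3, Units.val_one]
  have hd : orderOf (2 : ZMod (p ^ 2)) ∣ p * (p - 1) := orderOf_dvd_of_pow_eq_one hphi
  have hcop : Nat.Coprime (orderOf (2 : ZMod (p ^ 2))) p := by
    rw [Nat.coprime_comm, hp.coprime_iff_not_dvd]
    intro hdiv
    have := Nat.le_of_dvd hpos hdiv
    omega
  exact orderOf_dvd_iff_pow_eq_one.1 (hcop.dvd_of_dvd_mul_left hd)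

theorem gap_mid {p : ℕ} (hp : p.Prime) (h19 : 19 ≤ p) (h31 : p ≠ 31) (hlt : p < 131072) :
    Gap p 175 := by
  by_cases h175 : p < 175
  · have hg : Nat.gcd p 30030 = 1 := by
      rw [← Nat.coprime_iff_gcd_eq_one, hp.coprime_iff_not_dvd]
      intro hd
      have h2 : 30030 = 2 * 3 * 5 * 7 * 11 * 13 := by norm_num
      rw [h2] at hd
      have h3 : ∀ q : ℕ, q.Prime → q < 19 → ¬ p ∣ q := by
        intro q hq hq19 hdq
        have := (Nat.prime_dvd_prime_iff_eq hp hq).1 hdq
        omega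
      rcases (hp.dvd_mul).1 hd with hd | hd
      · rcases (hp.dvd_mul).1 hd with hd | hd
        · rcases (hp.dvd_mul).1 hd with hd | hd
          · rcases (hp.dvd_mul).1 hd with hd | hd
            · rcases (hp.dvd_mul).1 hd with hd | hd
              · exact h3 2 (by norm_num) (by norm_num) hd
              · exact h3 3 (by norm_num) (by norm_num) hd
            · exact h3 5 (by norm_num) (by norm_num) hd
          · exact h3 7 (by norm_num) (by norm_num) hd
        · exact h3 11 (by norm_num) (by norm_num) hd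
      · exact h3 13 (by norm_num) (by norm_num) hd
    exact gap_of (gap_small p h175 h19 h31 hg)
  · push Not at h175
    by_cases h1 : p = 1093
    · rw [h1]; exact gap_1093
    by_cases h2 : p = 3511
    · rw [h2]; exact gap_3511
    have hodd : p % 2 = 1 := by
      rcases hp.eq_two_or_odd with h | h
      · omega
      · exact h
    exact gap_of_not_wieferich hp h175 (not_wieferich hlt hodd h1 h2)

theorem gap_large {p : ℕ} (hlt : 131072 < p) : Gap p 35 := by
  intro j hj0 hj hc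
  have h1 : 2 ^ j < p ^ 2 := by
    calc 2 ^ j ≤ 2 ^ 34 := Nat.pow_le_pow_right (by norm_num) (by omega)
      _ = 131072 ^ 2 := by norm_num
      _ < p ^ 2 := Nat.pow_lt_pow_left hlt (by norm_num)
  rw [Nat.mod_eq_of_lt h1] at hc
  have h2 : 1 < 2 ^ j := Nat.one_lt_two_pow hj0.ne'
  omega

end Pool.Agent.SqTwo
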