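import Pool.Agent.SqTwo.Tail

/-!
# An explicit upper bound for the density of the exceptional set
-/

set_option autoImplicit false

open Finset

namespace Pool.Agent.SqTwo

/-- the small primes -/
def SS : Finset ℕ := {3, 5, 7, 11, 13, 17, 31}

theorem sum_SS_le (n : ℕ) : ∑ p ∈ SS, (BB p n).card ≤ 56 := by
  have h3 := card_BB_le (p := 3) (by norm_num) (by norm_num) (by norm_num) gap_3 n
  have h5 := card_BB_le (p := 5) (by norm_num) (by norm_num) (by norm_num) gap_5 n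
  have h7 := card_BB_le (p := 7) (by norm_num) (by norm_num) (by norm_num) gap_7 n
  have h11 := card_BB_le (p := 11) (by norm_num) (by norm_num) (by norm_num) gap_11 n
  have h13 := card_BB_le (p := 13) (by norm_num) (by norm_num) (by norm_num) gap_13 n
  have h17 := card_BB_le (p := 17) (by norm_num) (by norm_num) (by norm_num) gap_17 n
  have h31 := card_BB_le (p := 31) (by norm_num) (by norm_num) (by norm_num) gap_31 n
  norm_num at h3 h5 h7 h11 h13 h17 h31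
  have hs : ∑ p ∈ SS, (BB p n).card = (BB 3 n).card + ((BB 5 n).card + ((BB 7 n).card +
      ((BB 11 n).card + ((BB 13 n).card + ((BB 17 n).card + (BB 31 n).card))))) := by
    unfold SS
    rw [Finset.sum_insert (by decide), Finset.sum_insert (by decide),
      Finset.sum_insert (by decide), Finset.sum_insert (by decide),
      Finset.sum_insert (by decide), Finset.sum_insert (by decide), Finset.sum_singleton]
  rw [hs]
  omega

theorem PP_subset (y : ℕ) : PP y ⊆ SS ∪ QQ y := by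
  intro p hp
  have hp' := mem_PP.1 hp
  rw [Finset.mem_union]
  by_cases h : 19 ≤ p ∧ p ≠ 31
  · exact Or.inr (mem_QQ.2 ⟨hp', h⟩)
  · left
    have h1 : p < 19 ∨ p = 31 := by omega
    rcases h1 with h1 | h1
    · have h2 := hp'.2.1
      have h3 := hp'.2.2
      unfold SS
      interval_cases p <;> first | decide | (exact absurd rfl h3) | (exfalso; revert h2; norm_num)
    · rw [h1]; decide

theorem window {y n : ℕ} (h : ∀ l ∈ II, ∃ p ∈ PP y, n ≡ 2 ^ l [MOD p ^ 2]) :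
    119 ≤ ∑ p ∈ QQ y, (BB p n).card := by
  classical
  have hsub : II ⊆ (SS ∪ QQ y).biUnion fun p => BB p n := by
    intro l hl
    obtain ⟨p, hp, hm⟩ := h l hl
    exact Finset.mem_biUnion.2 ⟨p, PP_subset y hp, Finset.mem_filter.2 ⟨hl, hm⟩⟩
  have h1 : II.card ≤ ∑ p ∈ SS ∪ QQ y, (BB p n).card :=
    (Finset.card_le_card hsub).trans Finset.card_biUnion_le
  have h2 : ∑ p ∈ SS ∪ QQ y, (BB p n).card ≤
      ∑ p ∈ SS, (BB p n).card + ∑ p ∈ QQ y, (BB p n).card := by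
    have := Finset.sum_union_inter (s₁ := SS) (s₂ := QQ y) (f := fun p => (BB p n).card)
    omega
  have h3 := sum_SS_le n
  have h175 : II.card = 175 := by simp [II]
  omega

theorem count_window (y N : ℕ) :
    (((range N).filter fun n => ∀ l ∈ II, ∃ p ∈ PP y, n ≡ 2 ^ l [MOD p ^ 2]).card : ℝ) *
      10 ^ 119 ≤ (N + ((∏ p ∈ QQ y, p ^ 2 : ℕ) : ℝ)) * (6 * 10 ^ 14) := by
  classical
  have hP : ∀ p ∈ QQ y, p.Prime := fun p hp => (mem_QQ.1 hp).1.2.1
  have h1 := sum_prod_le (QQ y) hP θ (fun p hp c => θ_bound hp c) N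
  have h2 : (((range N).filter fun n => ∀ l ∈ II, ∃ p ∈ PP y, n ≡ 2 ^ l [MOD p ^ 2]).card : ℝ) *
      10 ^ 119 ≤ ∑ n ∈ range N, ∏ p ∈ QQ y, (10 : ℝ) ^ (BB p n).card := by
    rw [← nsmul_eq_mul, ← Finset.sum_const]
    refine (Finset.sum_le_sum fun n hn => ?_).trans
      (Finset.sum_le_sum_of_subset_of_nonneg (Finset.filter_subset _ _)
        fun n _ _ => Finset.prod_nonneg fun p _ => by positivity)
    rw [Finset.prod_pow_eq_pow_sum]
    exact pow_le_pow_right₀ (by norm_num) (window (Finset.mem_filter.1 hn).2)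
  refine h2.trans (h1.trans ?_)
  exact mul_le_mul_of_nonneg_left (prod_le y) (by positivity)

theorem count_large {y : ℕ} (hy : 0 < y) (N : ℕ) :
    (((range N).filter fun n => ∃ l ∈ II, ∃ p ∈ Finset.Ioc y (Nat.sqrt N),
      n ≡ 2 ^ l [MOD p ^ 2]).card : ℝ) ≤ 175 * (N * (y : ℝ)⁻¹ + Nat.sqrt N) := by
  classical
  have hsub : ((range N).filter fun n => ∃ l ∈ II, ∃ p ∈ Finset.Ioc y (Nat.sqrt N),
      n ≡ 2 ^ l [MOD p ^ 2]) ⊆ II.biUnion fun l => (Finset.Ioc y (Nat.sqrt N)).biUnion fun p =>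
        (range N).filter fun n => n ≡ 2 ^ l [MOD p ^ 2] := by
    intro n hn
    obtain ⟨hN, l, hl, p, hp, hm⟩ := Finset.mem_filter.1 hn
    exact Finset.mem_biUnion.2 ⟨l, hl, Finset.mem_biUnion.2 ⟨p, hp,
      Finset.mem_filter.2 ⟨hN, hm⟩⟩⟩
  refine (Nat.cast_le.2 ((Finset.card_le_card hsub).trans Finset.card_biUnion_le)).trans ?_
  rw [Nat.cast_sum]
  have h175 : II.card = 175 := by simp [II]
  have hl : ∀ l ∈ II, ((((Finset.Ioc y (Nat.sqrt N)).biUnion fun p =>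
        (range N).filter fun n => n ≡ 2 ^ l [MOD p ^ 2]).card : ℕ) : ℝ) ≤
        N * (y : ℝ)⁻¹ + Nat.sqrt N := by
    intro l _
    refine (Nat.cast_le.2 Finset.card_biUnion_le).trans ?_
    rw [Nat.cast_sum]
    have h1 : ∀ p ∈ Finset.Ioc y (Nat.sqrt N),
        (((range N).filter fun n => n ≡ 2 ^ l [MOD p ^ 2]).card : ℝ) ≤
          N * ((p : ℝ) ^ 2)⁻¹ + 1 := by
      intro p hp
      have hp0 : 0 < p := hy.trans (Finset.mem_Ioc.1 hp).1
      refine (card_modEq_le N (2 ^ l) (p ^ 2) (pow_pos hp0 2)).trans (le_of_eq ?_)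
      push_cast
      rw [div_eq_mul_inv]
    refine (Finset.sum_le_sum h1).trans ?_
    rw [Finset.sum_add_distrib, ← Finset.mul_sum, Finset.sum_const, nsmul_eq_mul, mul_one,
      Nat.card_Ioc]
    have h5 : ∑ p ∈ Finset.Ioc y (Nat.sqrt N), ((p : ℝ) ^ 2)⁻¹ ≤ (y : ℝ)⁻¹ := by
      rcases le_total y (Nat.sqrt N) with hle | hle
      · refine (sum_Ioc_inv_sq_le_sub hy.ne' hle).trans ?_
        have : (0 : ℝ) ≤ ((Nat.sqrt N : ℕ) : ℝ)⁻¹ := by positivity
        linarith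
      · rw [Finset.Ioc_eq_empty_of_le hle, Finset.sum_empty]; positivity
    have h6 : (((Nat.sqrt N - y : ℕ)) : ℝ) ≤ Nat.sqrt N := by
      exact_mod_cast Nat.sub_le _ _
    gcongr
  refine (Finset.sum_le_sum hl).trans ?_
  rw [Finset.sum_const, h175, nsmul_eq_mul]
  norm_num

theorem exc_subset (y N : ℕ) : ({n | n < N ∧ n ∈ exc} : Set ℕ) ⊆
    ((range (2 ^ 176) ∪ (((range N).filter fun n => ∃ l ∈ II, ∃ p ∈ Finset.Ioc y (Nat.sqrt N),
      n ≡ 2 ^ l [MOD p ^ 2]) ∪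
      ((range N).filter fun n => ∀ l ∈ II, ∃ p ∈ PP y, n ≡ 2 ^ l [MOD p ^ 2])) : Finset ℕ)
        : Set ℕ) := by
  rintro n ⟨hnN, hn⟩
  rw [Finset.mem_coe, Finset.mem_union, Finset.mem_union]
  by_cases hsmall : n < 2 ^ 176
  · exact Or.inl (Finset.mem_range.2 hsmall)
  · right
    by_cases hall : ∀ l ∈ II, ∃ p ∈ PP y, n ≡ 2 ^ l [MOD p ^ 2]
    · exact Or.inr (Finset.mem_filter.2 ⟨Finset.mem_range.2 hnN, hall⟩)
    · left
      push Not at hall
      obtain ⟨l, hl, hno⟩ := hall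
      refine Finset.mem_filter.2 ⟨Finset.mem_range.2 hnN, l, hl, ?_⟩
      have hl' := Finset.mem_Ico.1 hl
      have hle : 2 ^ l ≤ n := by
        refine le_trans (Nat.pow_le_pow_right (by norm_num) (by omega : l ≤ 176)) ?_
        exact not_lt.1 hsmall
      obtain ⟨p, hp, hp2, hd⟩ := exists_prime_of_exc hn hl'.1 hle
      have hmod : n ≡ 2 ^ l [MOD p ^ 2] := modEq_of_dvd hle hd
      have hyp : y < p := by
        by_contra hcon
        exact hno p (mem_PP.2 ⟨not_lt.1 hcon, hp, hp2⟩) hmod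
      have hpos : 0 < n - 2 ^ l := by
        rcases Nat.eq_zero_or_pos (n - 2 ^ l) with h0 | h0
        · exfalso
          have heq : n = 2 ^ l := by omega
          apply hn.2.1
          rw [heq]
          have : 2 ^ 2 ∣ 2 ^ l := pow_dvd_pow 2 hl'.1
          simpa using this
        · exact h0
      have hple : p ^ 2 ≤ N :=
        ((Nat.le_of_dvd hpos hd).trans (Nat.sub_le _ _)).trans (le_of_lt hnN)
      exact ⟨p, Finset.mem_Ioc.2 ⟨hyp, Nat.le_sqrt'.2 hple⟩, hmod⟩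

theorem cnt_le (y : ℕ) (hy : 0 < y) (N : ℕ) : cnt exc N ≤ 2 ^ 176 +
    175 * (N * (y : ℝ)⁻¹ + Nat.sqrt N) +
    (N + ((∏ p ∈ QQ y, p ^ 2 : ℕ) : ℝ)) * (6 / 10 ^ 105) := by
  have h1 := Set.ncard_le_ncard (exc_subset y N) (Finset.finite_toSet _)
  rw [Set.ncard_coe_finset] at h1
  have h2 := count_large hy N
  have h3 := count_window y N
  have h4 : (((range N).filter fun n => ∀ l ∈ II, ∃ p ∈ PP y, n ≡ 2 ^ l [MOD p ^ 2]).card : ℝ)
      ≤ (N + ((∏ p ∈ QQ y, p ^ 2 : ℕ) : ℝ)) * (6 / 10 ^ 105) := by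
    have h5 : (0 : ℝ) < 10 ^ 119 := by positivity
    rw [← le_div_iff₀ h5] at h3
    refine h3.trans (le_of_eq ?_)
    have h6 : (10 : ℝ) ^ 119 = 10 ^ 14 * 10 ^ 105 := by norm_num
    rw [h6]
    field_simp
  have h8 := h1.trans ((Finset.card_union_le _ _).trans
    (add_le_add_right (Finset.card_union_le _ _) _))
  rw [Finset.card_range] at h8
  have h7 : cnt exc N ≤ _ := Nat.cast_le (α := ℝ).2 h8
  rw [Nat.cast_add, Nat.cast_add, Nat.cast_pow, Nat.cast_ofNat] at h7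
  linarith

/-- the exceptional integers are very rare -/
theorem exists_explicit : ∃ N₀ : ℕ, ∀ N : ℕ, N₀ ≤ N → cnt exc N ≤ N / 10 ^ 104 := by
  obtain ⟨y, hy⟩ : ∃ y : ℕ, (y : ℝ) = 10 ^ 110 := ⟨10 ^ 110, by rw [Nat.cast_pow, Nat.cast_ofNat]⟩
  have hy0 : 0 < y := by
    have : (0 : ℝ) < y := by rw [hy]; positivity
    exact_mod_cast this
  set Q : ℕ := ∏ p ∈ QQ y, p ^ 2 with hQ
  obtain ⟨N1, hN1⟩ := exists_nat_gt (10 ^ 106 * ((2 : ℝ) ^ 176 + Q))
  obtain ⟨N2, hN2⟩ := exists_nat_gt ((10 ^ 106 * 175 : ℝ) ^ 2)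
  refine ⟨N1 + N2, fun N hN => ?_⟩
  have h := cnt_le y hy0 N
  rw [← hQ] at h
  have hN0 : (0 : ℝ) ≤ N := Nat.cast_nonneg N
  have hQ0 : (0 : ℝ) ≤ Q := Nat.cast_nonneg Q
  have e1 : (2 : ℝ) ^ 176 + Q ≤ N / 10 ^ 106 := by
    have : (N1 : ℝ) ≤ N := by exact_mod_cast (by omega : N1 ≤ N)
    rw [le_div_iff₀ (by positivity)]
    linarith
  have e2 : 175 * ((Nat.sqrt N : ℕ) : ℝ) ≤ N / 10 ^ 106 := by
    have h3 : ((Nat.sqrt N : ℕ) : ℝ) ^ 2 ≤ N := by exact_mod_cast Nat.sqrt_le' N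
    have h4 : ((Nat.sqrt N : ℕ) : ℝ) ≤ Real.sqrt N := Real.le_sqrt_of_sq_le h3
    have h5 : (10 ^ 106 * 175 : ℝ) ^ 2 ≤ N := by
      have : (N2 : ℝ) ≤ N := by exact_mod_cast (by omega : N2 ≤ N)
      exact hN2.le.trans this
    have h6 : (10 ^ 106 * 175 : ℝ) ≤ Real.sqrt N := Real.le_sqrt_of_sq_le h5
    rw [le_div_iff₀ (by positivity)]
    calc 175 * ((Nat.sqrt N : ℕ) : ℝ) * 10 ^ 106 ≤ 175 * Real.sqrt N * 10 ^ 106 := by gcongr
      _ = (10 ^ 106 * 175) * Real.sqrt N := by ring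
      _ ≤ Real.sqrt N * Real.sqrt N := by gcongr
      _ = N := Real.mul_self_sqrt hN0
  have e3 : ((y : ℕ) : ℝ)⁻¹ = 1 / 10 ^ 110 := by
    rw [hy, one_div]
  rw [e3] at h
  have e4 : (Q : ℝ) * (6 / 10 ^ 105) ≤ Q := by
    have : (6 : ℝ) / 10 ^ 105 ≤ 1 := by norm_num
    nlinarith
  have e5 : (N : ℝ) / 10 ^ 106 + (N / 10 ^ 106 + (175 * (N * (1 / 10 ^ 110)) +
      N * (6 / 10 ^ 105))) ≤ N / 10 ^ 104 := by
    have : (N : ℝ) / 10 ^ 106 + (N / 10 ^ 106 + (175 * (N * (1 / 10 ^ 110)) +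
      N * (6 / 10 ^ 105))) = N * (1 / 10 ^ 106 + (1 / 10 ^ 106 + (175 * (1 / 10 ^ 110) +
      6 / 10 ^ 105))) := by ring
    rw [this, div_eq_mul_inv]
    apply mul_le_mul_of_nonneg_left _ hN0
    norm_num
  linarith

end Pool.Agent.SqTwo
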