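import Pool.Agent.SqTwo.Chern
import Pool.Agent.SqTwo.Density

/-!
# Sums over the primes
-/

set_option autoImplicit false

open Finset

namespace Pool.Agent.SqTwo

/-- the weight of a prime -/
noncomputable def θ (p : ℕ) : ℝ := if p < 131072 then 9 else 99999 / 5

/-- the primes which are treated by moments -/
def QQ (y : ℕ) : Finset ℕ := (PP y).filter fun p => 19 ≤ p ∧ p ≠ 31

theorem mem_QQ {y p : ℕ} : p ∈ QQ y ↔ (p ≤ y ∧ p.Prime ∧ p ≠ 2) ∧ 19 ≤ p ∧ p ≠ 31 := by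
  rw [QQ, Finset.mem_filter, mem_PP]

theorem θ_bound {y p : ℕ} (hp : p ∈ QQ y) (c : ZMod (p ^ 2)) :
    (10 : ℝ) ^ bz p c ≤ 1 + θ p * bz p c := by
  obtain ⟨⟨-, hpp, hp2⟩, h19, h31⟩ := mem_QQ.1 hp
  haveI : NeZero (p ^ 2) := ⟨(pow_pos hpp.pos 2).ne'⟩
  have hc : bz p c = (BB p c.val).card := by
    rw [← bz_natCast, ZMod.natCast_zmod_val]
  rw [hc]
  unfold θ
  split_ifs with h
  · have h1 := card_BB_le hpp hp2 (by norm_num) (gap_mid hpp h19 h31 h) c.val
    norm_num at h1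
    interval_cases hk : (BB p c.val).card <;> norm_num
  · have h' : 131072 < p := by
      rcases Nat.lt_or_ge 131072 p with h1 | h1
      · exact h1
      · exfalso
        have h2 : p = 131072 := by omega
        rw [h2] at hpp
        have h3 : (131072 : ℕ) = 2 ^ 17 := by norm_num
        rw [h3] at hpp
        exact absurd hpp (Nat.Prime.not_prime_pow (by norm_num))
    have h1 := card_BB_le hpp hp2 (by norm_num) (gap_large h') c.val
    norm_num at h1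
    interval_cases hk : (BB p c.val).card <;> norm_num

theorem odd_tail (a b : ℕ) (ha : 0 < a) (hab : a ≤ b) :
    ∑ k ∈ Finset.Ico a b, (1 : ℝ) / (2 * (k : ℝ) + 1) ^ 2 ≤
      (1 : ℝ) / (4 * (a : ℝ)) - (1 : ℝ) / (4 * (b : ℝ)) := by
  induction b, hab using Nat.le_induction with
  | base => simp
  | succ n hn ih =>
    rw [Finset.sum_Ico_succ_top hn]
    have hn0 : (0 : ℝ) < n := by
      have : 0 < n := lt_of_lt_of_le ha hn
      exact_mod_cast this
    have key : (1 : ℝ) / (2 * (n : ℝ) + 1) ^ 2 ≤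
        (1 : ℝ) / (4 * (n : ℝ)) - (1 : ℝ) / (4 * ((n : ℝ) + 1)) := by
      rw [div_sub_div _ _ (by positivity) (by positivity),
        div_le_div_iff₀ (by positivity) (by positivity)]
      nlinarith
    push_cast
    linarith

theorem odd_tail' (a b : ℕ) (ha : 0 < a) :
    ∑ k ∈ Finset.Ico a b, (1 : ℝ) / (2 * (k : ℝ) + 1) ^ 2 ≤ (1 : ℝ) / (4 * (a : ℝ)) := by
  rcases le_total a b with h | h
  · refine (odd_tail a b ha h).trans ?_
    have : (0 : ℝ) ≤ (1 : ℝ) / (4 * (b : ℝ)) := by positivity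
    linarith
  · rw [Finset.Ico_eq_empty_of_le h, Finset.sum_empty]
    positivity

/-- the explicit part -/
def EE : Finset ℕ := (Finset.range 500).filter fun m => 19 ≤ m ∧ m ≠ 31 ∧ Nat.gcd m 30030 = 1

theorem sum_EE_nat : ∑ m ∈ EE, (10 ^ 9 / (m * m) + 1) ≤ 11817678 := by
  decide +kernel

theorem sum_EE : ∑ m ∈ EE, (1 : ℝ) / (m : ℝ) ^ 2 ≤ 11817678 / 10 ^ 9 := by
  have h1 : ∀ m ∈ EE, (1 : ℝ) / (m : ℝ) ^ 2 ≤ ((10 ^ 9 / (m * m) + 1 : ℕ) : ℝ) / 10 ^ 9 := by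
    intro m hm
    have hm0 : 0 < m := by
      have := (Finset.mem_filter.1 hm).2.1
      omega
    have hm' : (0 : ℝ) < m := by exact_mod_cast hm0
    rw [div_le_div_iff₀ (by positivity) (by positivity), one_mul]
    have h2 : 10 ^ 9 < (10 ^ 9 / (m * m) + 1) * (m * m) :=
      Nat.lt_mul_of_div_lt (Nat.lt_succ_self _) (Nat.mul_pos hm0 hm0)
    have h3 : ((10 ^ 9 : ℕ) : ℝ) ≤ (((10 ^ 9 / (m * m) + 1) * (m * m) : ℕ) : ℝ) := by
      exact_mod_cast h2.le
    calc (10 : ℝ) ^ 9 = ((10 ^ 9 : ℕ) : ℝ) := by norm_num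
      _ ≤ _ := h3
      _ = ((10 ^ 9 / (m * m) + 1 : ℕ) : ℝ) * (m : ℝ) ^ 2 := by push_cast; ring
  refine (Finset.sum_le_sum h1).trans ?_
  rw [← Finset.sum_div, ← Nat.cast_sum]
  have h2 : ((∑ m ∈ EE, (10 ^ 9 / (m * m) + 1) : ℕ) : ℝ) ≤ ((11817678 : ℕ) : ℝ) := by
    exact_mod_cast sum_EE_nat
  have h3 : ((11817678 : ℕ) : ℝ) = 11817678 := by norm_num
  rw [h3] at h2
  gcongr

theorem sum_θ (y : ℕ) : ∑ p ∈ QQ y, 175 * θ p / (p : ℝ) ^ 2 ≤ 34 := by
  classical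
  have hg : ∀ m : ℕ, 0 ≤ 175 * θ m / (m : ℝ) ^ 2 := by
    intro m
    unfold θ
    split_ifs <;> positivity
  set A : Finset ℕ := EE with hA
  set B : Finset ℕ := (Finset.Ico 250 65536).image (fun k => 2 * k + 1) with hB
  set C : Finset ℕ := (Finset.Ico 65536 (y + 1)).image (fun k => 2 * k + 1) with hC
  have hsub : QQ y ⊆ A ∪ (B ∪ C) := by
    intro p hp
    obtain ⟨⟨hy, hpp, hp2⟩, h19, h31⟩ := mem_QQ.1 hp
    have hodd : p % 2 = 1 := by
      rcases hpp.eq_two_or_odd with h | h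
      · exact absurd h hp2
      · exact h
    rw [Finset.mem_union, Finset.mem_union]
    rcases Nat.lt_or_ge p 500 with h | h
    · left
      refine Finset.mem_filter.2 ⟨Finset.mem_range.2 h, h19, h31, ?_⟩
      rw [← Nat.coprime_iff_gcd_eq_one, hpp.coprime_iff_not_dvd]
      intro hd
      have h2 : 30030 = 2 * 3 * 5 * 7 * 11 * 13 := by norm_num
      rw [h2] at hd
      have h3 : ∀ q : ℕ, q.Prime → q < 19 → ¬ p ∣ q := by
        intro q hq hq19 hdq
        have := (Nat.prime_dvd_prime_iff_eq hpp hq).1 hdq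
        omega
      rcases (hpp.dvd_mul).1 hd with hd | hd
      · rcases (hpp.dvd_mul).1 hd with hd | hd
        · rcases (hpp.dvd_mul).1 hd with hd | hd
          · rcases (hpp.dvd_mul).1 hd with hd | hd
            · rcases (hpp.dvd_mul).1 hd with hd | hd
              · exact h3 2 (by norm_num) (by norm_num) hd
              · exact h3 3 (by norm_num) (by norm_num) hd
            · exact h3 5 (by norm_num) (by norm_num) hd
          · exact h3 7 (by norm_num) (by norm_num) hd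
        · exact h3 11 (by norm_num) (by norm_num) hd
      · exact h3 13 (by norm_num) (by norm_num) hd
    · right
      rcases Nat.lt_or_ge p 131072 with h' | h'
      · left
        exact Finset.mem_image.2 ⟨p / 2, Finset.mem_Ico.2 ⟨by omega, by omega⟩, by omega⟩
      · right
        exact Finset.mem_image.2 ⟨p / 2, Finset.mem_Ico.2 ⟨by omega, by omega⟩, by omega⟩
  have hinj : Function.Injective fun k : ℕ => 2 * k + 1 := by
    intro a b h
    have : 2 * a + 1 = 2 * b + 1 := h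
    omega
  have hAs : ∑ p ∈ A, 175 * θ p / (p : ℝ) ^ 2 ≤ 1575 * (11817678 / 10 ^ 9) := by
    have h1 : ∀ p ∈ A, 175 * θ p / (p : ℝ) ^ 2 = 1575 * (1 / (p : ℝ) ^ 2) := by
      intro p hp
      have : p < 500 := Finset.mem_range.1 (Finset.mem_filter.1 hp).1
      unfold θ
      rw [if_pos (by omega)]
      ring
    rw [Finset.sum_congr rfl h1, ← Finset.mul_sum]
    exact mul_le_mul_of_nonneg_left sum_EE (by norm_num)
  have hBs : ∑ p ∈ B, 175 * θ p / (p : ℝ) ^ 2 ≤ 1575 * ((1 : ℝ) / (4 * ((250 : ℕ) : ℝ))) := by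
    rw [hB, Finset.sum_image (fun a _ b _ h => hinj h)]
    have h1 : ∀ k ∈ Finset.Ico 250 65536, 175 * θ (2 * k + 1) / (((2 * k + 1 : ℕ)) : ℝ) ^ 2 =
        1575 * (1 / (2 * (k : ℝ) + 1) ^ 2) := by
      intro k hk
      have := (Finset.mem_Ico.1 hk).2
      unfold θ
      rw [if_pos (by omega)]
      push_cast
      ring
    rw [Finset.sum_congr rfl h1, ← Finset.mul_sum]
    exact mul_le_mul_of_nonneg_left (odd_tail' 250 65536 (by norm_num)) (by norm_num)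
  have hCs : ∑ p ∈ C, 175 * θ p / (p : ℝ) ^ 2 ≤
      3499965 * ((1 : ℝ) / (4 * ((65536 : ℕ) : ℝ))) := by
    rw [hC, Finset.sum_image (fun a _ b _ h => hinj h)]
    have h1 : ∀ k ∈ Finset.Ico 65536 (y + 1), 175 * θ (2 * k + 1) / (((2 * k + 1 : ℕ)) : ℝ) ^ 2 =
        3499965 * (1 / (2 * (k : ℝ) + 1) ^ 2) := by
      intro k hk
      have := (Finset.mem_Ico.1 hk).1
      unfold θ
      rw [if_neg (by omega)]
      push_cast
      ring
    rw [Finset.sum_congr rfl h1, ← Finset.mul_sum]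
    exact mul_le_mul_of_nonneg_left (odd_tail' 65536 (y + 1) (by norm_num)) (by norm_num)
  have h2 : ∑ p ∈ QQ y, 175 * θ p / (p : ℝ) ^ 2 ≤ ∑ p ∈ A ∪ (B ∪ C), 175 * θ p / (p : ℝ) ^ 2 :=
    Finset.sum_le_sum_of_subset_of_nonneg hsub fun p _ _ => hg p
  have h3 : ∀ s t : Finset ℕ, ∑ p ∈ s ∪ t, 175 * θ p / (p : ℝ) ^ 2 ≤
      ∑ p ∈ s, 175 * θ p / (p : ℝ) ^ 2 + ∑ p ∈ t, 175 * θ p / (p : ℝ) ^ 2 := by
    intro s t
    rw [← Finset.sum_union_inter]
    have : 0 ≤ ∑ p ∈ s ∩ t, 175 * θ p / (p : ℝ) ^ 2 := Finset.sum_nonneg fun p _ => hg p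
    linarith
  have h4 := h3 A (B ∪ C)
  have h5 := h3 B C
  have h6 : 1575 * ((11817678 : ℝ) / 10 ^ 9) + (1575 * (1 / (4 * ((250 : ℕ) : ℝ))) +
      3499965 * (1 / (4 * ((65536 : ℕ) : ℝ)))) ≤ 34 := by norm_num
  linarith

theorem prod_le (y : ℕ) : ∏ p ∈ QQ y, (1 + 175 * θ p / (p : ℝ) ^ 2) ≤ 6 * 10 ^ 14 := by
  have h1 : ∏ p ∈ QQ y, (1 + 175 * θ p / (p : ℝ) ^ 2) ≤
      ∏ p ∈ QQ y, Real.exp (175 * θ p / (p : ℝ) ^ 2) := by
    refine Finset.prod_le_prod (fun p _ => ?_) fun p _ => ?_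
    · have : 0 ≤ 175 * θ p / (p : ℝ) ^ 2 := by
        unfold θ
        split_ifs <;> positivity
      linarith
    · have := Real.add_one_le_exp (175 * θ p / (p : ℝ) ^ 2)
      linarith
  rw [← Real.exp_sum] at h1
  refine h1.trans ((Real.exp_le_exp.2 (sum_θ y)).trans ?_)
  have h2 : Real.exp 34 = Real.exp 1 ^ 34 := by
    rw [← Real.exp_nat_mul]; norm_num
  rw [h2]
  calc Real.exp 1 ^ 34 ≤ (2.7182818286 : ℝ) ^ 34 :=
        pow_le_pow_left₀ (Real.exp_pos 1).le Real.exp_one_lt_d9.le 34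
    _ ≤ 6 * 10 ^ 14 := by norm_num

end Pool.Agent.SqTwo
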